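import Pool.Agent.PSQ.Main

/-!
# Tilings of the plane by translates of a prime number of parallelograms
-/

set_option autoImplicit false

open Pool.Agent.PSQ

namespace Pool.Agent.Results.MP_eac546_co.PrimeClusters

/-- Let `P` be the closed parallelogram with the vertices `0, a, b, a + b`, let `F` be a finite
set of vectors whose number `p` of elements is a prime, and let the translates `P + v`, `v ∈ F`,
have pairwise disjoint interiors. Their union `C` is a body. If `C` tiles the plane by
translates, then it has a doubly periodic tiling. Moreover, for every tiling `{C + t : t ∈ T}`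
and all `v, w ∈ F`, the union of the `P + t`, `t ∈ T`, is invariant under the translation by
`p (v - w)`. -/
theorem result (a b : ℝ × ℝ) (hab : LinearIndependent ℝ ![a, b]) (F : Finset (ℝ × ℝ))
    (hp : F.card.Prime)
    (hF : ∀ v ∈ F, ∀ w ∈ F, v ≠ w →
      Disjoint (interior (tr (par a b) v)) (interior (tr (par a b) w))) :
    IsBody (⋃ v ∈ F, tr (par a b) v) ∧
    ((∃ T, Tiling (⋃ v ∈ F, tr (par a b) v) T) →
      ∃ T, Tiling (⋃ v ∈ F, tr (par a b) v) T ∧ Periodic T) ∧
    ∀ T, Tiling (⋃ v ∈ F, tr (par a b) v) T → ∀ v ∈ F, ∀ w ∈ F,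
      tr (⋃ t ∈ T, tr (par a b) t) (F.card • (v - w)) = ⋃ t ∈ T, tr (par a b) t :=
  main a b hab F hp hF

end Pool.Agent.Results.MP_eac546_co.PrimeClusters
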